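import Pool.Agent.K1H22.DF.Stm6
import Pool.Agent.K1H74.DF.A
import Pool.Agent.K1H38.DF.Few3

/-! Pieces DEEP6 and EXC6 of the project DF6. -/

set_option autoImplicit false

namespace Pool.Agent.K1H10.DF6

open Pool.Agent.K1H22.DF Pool.Agent.K1H38.DF Finset

lemma path_of_reach {V : Type*} (G : SimpleGraph V) (S : Finset V) (j : ℕ) (u v : V)
    (h : Reach G S j u v) :
    ∃ m ≤ j, ∃ p : ℕ → V, p 0 = u ∧ p m = v ∧ (∀ i < m, G.Adj (p i) (p (i + 1))) ∧
      ∀ i, 1 ≤ i → i ≤ m → p i ∉ S := by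
  induction j generalizing u with
  | zero => exact ⟨0, le_rfl, fun _ => u, rfl, h, fun i hi => absurd hi (Nat.not_lt_zero _),
      fun i h1 h2 => by omega⟩
  | succ j ih =>
    rcases h with h | ⟨x, hx, ha, h⟩
    · exact ⟨0, Nat.zero_le _, fun _ => u, rfl, h, fun i hi => absurd hi (Nat.not_lt_zero _),
        fun i h1 h2 => by omega⟩
    · obtain ⟨m, hm, p, hp0, hpm, hadj, hS⟩ := ih x h
      refine ⟨m + 1, by omega, fun i => if i = 0 then u else p (i - 1), by simp, by simp [hpm],
        ?_, ?_⟩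
      · intro i hi
        rcases Nat.eq_zero_or_pos i with h0 | h0
        · subst h0
          simpa [hp0] using ha
        · have h1 : i ≠ 0 := by omega
          have h2 : i - 1 + 1 = i := by omega
          simp only [h1, if_false, Nat.add_one_ne_zero, Nat.add_sub_cancel]
          have h3 := hadj (i - 1) (by omega)
          rwa [h2] at h3
      · intro i h1 h2
        have h3 : i ≠ 0 := by omega
        simp only [h3, if_false]
        rcases Nat.eq_zero_or_pos (i - 1) with h0 | h0
        · rw [h0, hp0]; exact hx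
        · exact hS (i - 1) h0 (by omega)

section

variable {V : Type} [Fintype V] [DecidableEq V] (G : SimpleGraph V) [DecidableRel G.Adj]

lemma ball_le (D : ℕ) (u : V) {i j : ℕ} (h : i ≤ j) : ball G D u i ⊆ ball G D u j := by
  induction j with
  | zero => rw [Nat.le_zero.1 h]
  | succ j ih =>
    rcases Nat.lt_or_ge i (j + 1) with h1 | h1
    · exact (ih (by omega)).trans (ball_mono G D u j)
    · rw [le_antisymm h h1]

lemma ball_of_path (D : ℕ) (m : ℕ) (p : ℕ → V) (hadj : ∀ i < m, G.Adj (p i) (p (i + 1)))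
    (hh : ∀ i ≤ m, p i ∉ hub G D) : ∀ i ≤ m, p i ∈ ball G D (p 0) i := by
  intro i
  induction i with
  | zero => intro _; rw [ball]; exact mem_singleton_self _
  | succ i ih =>
    intro hi
    exact ball_step G D (p 0) i (ih (by omega)) (hadj i (by omega)) (hh _ hi)

/-- if the vertices at the beginning and at the end of the path are no hubs, the end is in the ball -/
lemma far (D : ℕ) (m : ℕ) (hm : m ≤ 6) (p : ℕ → V) (hadj : ∀ i < m, G.Adj (p i) (p (i + 1)))
    (h0 : p 0 ∉ hub G D) (h1 : 1 ≤ m → p 1 ∉ hub G D) (h2 : 2 ≤ m → p 2 ∉ hub G D)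
    (h3 : 3 ≤ m → p 3 ∉ hub G D) (g0 : p m ∉ hub G D) (g1 : 1 ≤ m → p (m - 1) ∉ hub G D)
    (g2 : 2 ≤ m → p (m - 2) ∉ hub G D) : p m ∈ ball G D (p 0) 6 := by
  refine ball_le G D (p 0) hm (ball_of_path G D m p hadj ?_ m le_rfl)
  intro i hi
  rcases Nat.lt_or_ge i 4 with h | h
  · interval_cases i
    · exact h0
    · exact h1 (by omega)
    · exact h2 (by omega)
    · exact h3 (by omega)
  · have h5 : i = m - 2 ∨ i = m - 1 ∨ i = m := by omega
    rcases h5 with h5 | h5 | h5
    · rw [h5]; exact g2 (by omega)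
    · rw [h5]; exact g1 (by omega)
    · rw [h5]; exact g0

lemma mem_ZZ (D : ℕ) (v : V) : v ∈ ZZ G D ↔ v ∉ hub G D ∧ hn G D v = ∅ := by simp [ZZ]

lemma mem_YY (D : ℕ) (v : V) : v ∈ YY G D ↔ v ∉ hub G D ∧ hn G D v ≠ ∅ := by simp [YY]

lemma mem_Z0 (D : ℕ) (v : V) : v ∈ Z0 G D ↔ v ∈ ZZ G D ∧ G.neighborFinset v ⊆ ZZ G D := by
  simp [Z0]

lemma nb_ZZ (D : ℕ) {x y : V} (hx : x ∈ ZZ G D) (h : G.Adj x y) : y ∉ hub G D := by
  intro hy
  have h1 : y ∈ hn G D x := (mem_hn G D x y).2 ⟨h, hy⟩
  rw [((mem_ZZ G D x).1 hx).2] at h1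
  exact notMem_empty _ h1

lemma nb_Z0 (D : ℕ) {x y : V} (hx : x ∈ Z0 G D) (h : G.Adj x y) : y ∈ ZZ G D :=
  ((mem_Z0 G D x).1 hx).2 (by rw [G.mem_neighborFinset]; exact h)

lemma mem_X6 (D k : ℕ) (h x : V) : x ∈ X6 G D k h ↔ x ∈ ZZ G D ∧ ∃ p ∈ YY G D, G.Adj x p ∧
    hn G D p = {h} ∧ G.degree p = k ∧ ∀ q ∈ YY G D, G.Adj x q → q = p := by
  unfold X6
  rw [mem_filter]

end

theorem t_DEEP6 : S_DEEP6 := by
  intro k D hk
  refine ⟨k + (1 + D) ^ 6 + 1, ?_⟩
  intro V _ _ G _ hA hC v hv
  by_contra hcon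
  rw [not_le] at hcon
  set M := (G.neighborFinset v).filter (fun x => x ∉ Z0 G D) with hM
  have hcard : (Z0 G D).card ≤ Fintype.card V := card_le_univ _
  have h1 : M ⊆ univ.erase v := by
    intro x hx
    rw [hM, mem_filter, SimpleGraph.mem_neighborFinset] at hx
    exact mem_erase.2 ⟨hx.1.ne.symm, mem_univ _⟩
  have h3 : k - 1 ≤ (univ.erase v).card := by
    rw [card_erase_of_mem (mem_univ _), card_univ]; omega
  obtain ⟨S, hS1, hS2, hS3⟩ := exists_subsuperset_card_eq h1 (by omega : M.card ≤ k - 1) h3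
  have hvS : v ∉ S := fun h => (mem_erase.1 (hS2 h)).1 rfl
  have hb := (Pool.Agent.K1H74.DF.t_BALL V G D v 6 hv).2
  have h4 : (S ∪ ball G D v 6).card < (Z0 G D).card := by
    have := card_union_le S (ball G D v 6)
    omega
  obtain ⟨w, hwZ, hw⟩ := exists_mem_notMem_of_card_lt_card h4
  have hwS : w ∉ S := fun h => hw (mem_union_left _ h)
  have hwB : w ∉ ball G D v 6 := fun h => hw (mem_union_right _ h)
  obtain ⟨m, hm, p, hp0, hpm, hadj, hS⟩ := path_of_reach G S 6 v w (hA S hS3 v w hvS hwS)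
  have e1 : 1 ≤ m → p 1 ∈ Z0 G D := by
    intro h
    by_contra hneg
    apply hS 1 le_rfl h
    apply hS1
    rw [hM, mem_filter, SimpleGraph.mem_neighborFinset]
    have := hadj 0 (by omega)
    rw [hp0] at this
    exact ⟨this, hneg⟩
  have e2 : 2 ≤ m → p 2 ∈ ZZ G D := fun h => nb_Z0 G D (e1 (by omega)) (hadj 1 (by omega))
  have f1 : 1 ≤ m → p (m - 1) ∈ ZZ G D := by
    intro h
    have := hadj (m - 1) (by omega)
    rw [show m - 1 + 1 = m by omega, hpm] at this
    exact nb_Z0 G D hwZ this.symm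
  apply hwB
  rw [← hp0, ← hpm]
  refine far G D m hm p hadj ?_ ?_ ?_ ?_ ?_ ?_ ?_
  · rw [hp0]; exact hv
  · intro h
    exact ((mem_ZZ G D _).1 ((mem_Z0 G D _).1 (e1 h)).1).1
  · intro h
    exact ((mem_ZZ G D _).1 (e2 h)).1
  · intro h
    exact nb_ZZ G D (e2 (by omega)) (hadj 2 (by omega))
  · rw [hpm]
    exact ((mem_ZZ G D _).1 ((mem_Z0 G D _).1 hwZ).1).1
  · intro h
    exact ((mem_ZZ G D _).1 (f1 h)).1
  · intro h
    have := hadj (m - 2) (by omega)
    rw [show m - 2 + 1 = m - 1 by omega] at this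
    exact nb_ZZ G D (f1 (by omega)) this.symm

theorem t_EXC6 : S_EXC6 := by
  intro k D hk
  refine ⟨(1 + D) ^ 6, ?_⟩
  intro V _ _ G _ hA h
  constructor
  · rcases (X6 G D k h).eq_empty_or_nonempty with he | ⟨x, hx⟩
    · rw [he, card_empty]; exact Nat.zero_le _
    obtain ⟨hxZ, p, hpY, hxp, hnp, hdp, hpu⟩ := (mem_X6 G D k h x).1 hx
    have hxh : x ∉ hub G D := ((mem_ZZ G D x).1 hxZ).1
    have hph : p ∉ hub G D := ((mem_YY G D p).1 hpY).1
    have hhn : h ∈ hn G D p := by rw [hnp]; exact mem_singleton_self _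
    obtain ⟨hadh, hhh⟩ := (mem_hn G D p h).1 hhn
    have hxN : x ∈ G.neighborFinset p := by rw [G.mem_neighborFinset]; exact hxp.symm
    have hSc : ((G.neighborFinset p).erase x).card = k - 1 := by
      rw [card_erase_of_mem hxN, G.card_neighborFinset_eq_degree, hdp]
    have hpS : p ∉ (G.neighborFinset p).erase x := by
      intro hc
      have := (mem_erase.1 hc).2
      rw [G.mem_neighborFinset] at this
      exact this.ne rfl
    have hhS : h ∈ (G.neighborFinset p).erase x := by
      refine mem_erase.2 ⟨?_, by rw [G.mem_neighborFinset]; exact hadh⟩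
      rintro rfl
      exact hxh hhh
    have hnb : ∀ y, G.Adj p y → y ∉ (G.neighborFinset p).erase x → y = x := by
      intro y hy hyS
      by_contra hne
      exact hyS (mem_erase.2 ⟨hne, by rw [G.mem_neighborFinset]; exact hy⟩)
    have hsub : X6 G D k h ⊆ ball G D p 6 := by
      intro x' hx'
      obtain ⟨hxZ', p', hpY', hxp', hnp', hdp', hpu'⟩ := (mem_X6 G D k h x').1 hx'
      have hxh' : x' ∉ hub G D := ((mem_ZZ G D x').1 hxZ').1
      by_contra hb
      have b0 : p ∈ ball G D p 0 := by rw [ball]; exact mem_singleton_self _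
      have hxS' : x' ∉ (G.neighborFinset p).erase x := by
        intro hc
        have := (mem_erase.1 hc).2
        rw [G.mem_neighborFinset] at this
        exact hb (ball_le G D p (by norm_num : 1 ≤ 6) (ball_step G D p 0 b0 this hxh'))
      obtain ⟨m, hm, q, hq0, hqm, hadj, hS⟩ :=
        path_of_reach G _ 6 p x' (hA _ hSc p x' hpS hxS')
      have e1 : 1 ≤ m → q 1 = x := by
        intro h1
        have := hadj 0 (by omega)
        rw [hq0] at this
        exact hnb _ this (hS 1 le_rfl h1)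
      have e2 : 2 ≤ m → G.Adj x (q 2) := by
        intro h1
        have := hadj 1 (by omega)
        rwa [e1 (by omega)] at this
      have f1 : 1 ≤ m → G.Adj x' (q (m - 1)) := by
        intro h1
        have := hadj (m - 1) (by omega)
        rw [show m - 1 + 1 = m by omega, hqm] at this
        exact this.symm
      apply hb
      rw [← hq0, ← hqm]
      refine far G D m hm q hadj ?_ ?_ ?_ ?_ ?_ ?_ ?_
      · rw [hq0]; exact hph
      · intro h1
        rw [e1 h1]; exact hxh
      · intro h1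
        exact nb_ZZ G D hxZ (e2 h1)
      · intro h1
        have a2 := nb_ZZ G D hxZ (e2 (by omega))
        have a3 := hadj 2 (by omega)
        by_cases hz : hn G D (q 2) = ∅
        · exact nb_ZZ G D ((mem_ZZ G D _).2 ⟨a2, hz⟩) a3
        · have a4 := hpu (q 2) ((mem_YY G D _).2 ⟨a2, hz⟩) (e2 (by omega))
          rw [a4] at a3
          rw [hnb _ a3 (hS 3 (by omega) h1)]
          exact hxh
      · rw [hqm]; exact hxh'
      · intro h1
        exact nb_ZZ G D hxZ' (f1 h1)
      · intro h1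
        have a2 := nb_ZZ G D hxZ' (f1 (by omega))
        have a3 := hadj (m - 2) (by omega)
        rw [show m - 2 + 1 = m - 1 by omega] at a3
        by_cases hz : hn G D (q (m - 1)) = ∅
        · exact nb_ZZ G D ((mem_ZZ G D _).2 ⟨a2, hz⟩) a3.symm
        · have a4 := hpu' (q (m - 1)) ((mem_YY G D _).2 ⟨a2, hz⟩) (f1 (by omega))
          intro hhub
          rcases Nat.eq_zero_or_pos (m - 2) with h0 | h0
          · rw [h0, hq0] at hhub
            exact hph hhub
          · have a5 : q (m - 2) ∈ hn G D (q (m - 1)) := (mem_hn G D _ _).2 ⟨a3.symm, hhub⟩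
            rw [a4, hnp', mem_singleton] at a5
            exact hS (m - 2) h0 (by omega) (by rw [a5]; exact hhS)
    exact (card_le_card hsub).trans (Pool.Agent.K1H74.DF.t_BALL V G D p 6 hph).2
  · have hsub : X6 G D k h ⊆ ((G.neighborFinset h).filter (fun p => G.degree p = k)).biUnion
        (fun p => G.neighborFinset p) := by
      intro x hx
      obtain ⟨hxZ, p, hpY, hxp, hnp, hdp, hpu⟩ := (mem_X6 G D k h x).1 hx
      have hhn : h ∈ hn G D p := by rw [hnp]; exact mem_singleton_self _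
      obtain ⟨hadh, hhh⟩ := (mem_hn G D p h).1 hhn
      rw [mem_biUnion]
      refine ⟨p, mem_filter.2 ⟨by rw [G.mem_neighborFinset]; exact hadh.symm, hdp⟩, ?_⟩
      rw [G.mem_neighborFinset]; exact hxp.symm
    refine (card_le_card hsub).trans ?_
    have h1 : (((G.neighborFinset h).filter (fun p => G.degree p = k)).biUnion
        (fun p => G.neighborFinset p)).card ≤
        ((G.neighborFinset h).filter (fun p => G.degree p = k)).card * k := by
      apply card_biUnion_le_card_mul
      intro y hy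
      rw [G.card_neighborFinset_eq_degree, (mem_filter.1 hy).2]
    refine h1.trans ?_
    rw [mul_comm]
    refine Nat.mul_le_mul_left k ?_
    rw [← G.card_neighborFinset_eq_degree]
    exact card_filter_le _ _

end Pool.Agent.K1H10.DF6
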